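import Mathlib

/-!
# Linear domination bounds for uniform hypergraphs
-/

set_option autoImplicit false

open Finset

namespace Pool.Agent.Results.MP_0828a1_co.SurfaceFour

section Core

variable {ι V : Type} [DecidableEq ι] [DecidableEq V]

/-- no vertex lies in three members of the family -/
def NoTriple (I : Finset ι) (f : ι → Finset V) : Prop :=
  ∀ x, ∀ a ∈ I, ∀ b ∈ I, ∀ c ∈ I, x ∈ f a → x ∈ f b → x ∈ f c → a = b ∨ a = c ∨ b = c

/-- a nonempty subfamily `S` with a cheap transversal `T` -/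
def Good (r : ℕ) (I : Finset ι) (f : ι → Finset V) : Prop :=
  ∃ S ⊆ I, S.Nonempty ∧ ∃ T : Finset V, (∀ i ∈ S, ∃ x ∈ T, x ∈ f i) ∧
    (2 * r - 2) * T.card ≤ (I.biUnion f \ (I \ S).biUnion f).card + (r - 2) * S.card

lemma noTriple_of {I : Finset ι} {f : ι → Finset V} (h : ∀ x, (I.filter (fun i => x ∈ f i)).card ≤ 2) :
    NoTriple I f := by
  intro x a ha b hb c hc xa xb xc
  by_contra hcon
  push Not at hcon
  have : 2 < (I.filter (fun i => x ∈ f i)).card := by
    rw [Finset.two_lt_card]
    exact ⟨a, by simp [ha, xa], b, by simp [hb, xb], c, by simp [hc, xc], hcon.1, hcon.2.1, hcon.2.2⟩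
  exact absurd (h x) (not_le.2 this)

lemma good_of_degree {r : ℕ} (hr : 3 ≤ r) {I : Finset ι} {f : ι → Finset V} {x : V}
    (h : 2 < (I.filter (fun i => x ∈ f i)).card) : Good r I f := by
  refine ⟨I.filter (fun i => x ∈ f i), filter_subset _ _, card_pos.1 (by omega), {x}, ?_, ?_⟩
  · intro i hi
    exact ⟨x, mem_singleton_self x, (mem_filter.1 hi).2⟩
  · have h1 : 1 ≤ (I.biUnion f \ (I \ I.filter (fun i => x ∈ f i)).biUnion f).card := by
      apply card_pos.2
      refine ⟨x, mem_sdiff.2 ⟨?_, ?_⟩⟩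
      · obtain ⟨i, hi⟩ := card_pos.1 (show 0 < (I.filter (fun i => x ∈ f i)).card by omega)
        rw [mem_filter] at hi
        exact mem_biUnion.2 ⟨i, hi.1, hi.2⟩
      · intro hx
        obtain ⟨i, hi, hx⟩ := mem_biUnion.1 hx
        rw [mem_sdiff, mem_filter] at hi
        exact hi.2 ⟨hi.1, hx⟩
    have h2 : (r - 2) * 3 ≤ (r - 2) * (I.filter (fun i => x ∈ f i)).card :=
      Nat.mul_le_mul_left _ h
    rw [card_singleton]
    omega

/-- an even closed chain of members -/
lemma good_of_cycle {r : ℕ} (hr : 3 ≤ r) {I : Finset ι} {f : ι → Finset V} (hN : NoTriple I f)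
    (q : ℕ → ι) (h : ℕ) (hh : 2 ≤ h) (hI : ∀ j < 2 * h, q j ∈ I)
    (hinj : ∀ i < 2 * h, ∀ j < 2 * h, q i = q j → i = j)
    (hadj : ∀ j, j + 1 < 2 * h → ∃ x, x ∈ f (q j) ∧ x ∈ f (q (j + 1)))
    (hclose : ∃ x, x ∈ f (q (2 * h - 1)) ∧ x ∈ f (q 0)) : Good r I f := by
  classical
  -- successor
  set nx : ℕ → ℕ := fun j => if j + 1 < 2 * h then j + 1 else 0 with hnx
  have hnx1 : ∀ j, j + 1 < 2 * h → nx j = j + 1 := by
    intro j hj; simp only [hnx, if_pos hj]
  have hnx2 : nx (2 * h - 1) = 0 := by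
    simp only [hnx]; rw [if_neg (by omega)]
  have hnxlt : ∀ j, nx j < 2 * h := by
    intro j; simp only [hnx]; split_ifs <;> omega
  have hex : ∀ j, ∃ x, j < 2 * h → x ∈ f (q j) ∧ x ∈ f (q (nx j)) := by
    intro j
    by_cases hj : j + 1 < 2 * h
    · obtain ⟨x, hx⟩ := hadj j hj
      exact ⟨x, fun _ => by rw [hnx1 j hj]; exact hx⟩
    · by_cases hj' : j < 2 * h
      · have : j = 2 * h - 1 := by omega
        obtain ⟨x, hx⟩ := hclose
        exact ⟨x, fun _ => by rw [this, hnx2]; exact hx⟩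
      · obtain ⟨x, -⟩ := hclose
        exact ⟨x, fun hc => absurd hc hj'⟩
  choose e he using hex
  have hne : ∀ j < 2 * h, j ≠ nx j := by
    intro j hj
    by_cases hj' : j + 1 < 2 * h
    · rw [hnx1 j hj']; omega
    · have : j = 2 * h - 1 := by omega
      rw [this, hnx2]; omega
  have hqne : ∀ j < 2 * h, q j ≠ q (nx j) := fun j hj hc =>
    hne j hj (hinj j hj _ (hnxlt j) hc)
  have heinj : ∀ i < 2 * h, ∀ j < 2 * h, e i = e j → i = j := by
    intro i hi j hj hij
    by_contra hne'
    have a1 := he i hi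
    have a2 := he j hj
    rw [← hij] at a2
    -- q j is one of q i, q (nx i)
    have b1 : j = nx i := by
      rcases hN (e i) (q i) (hI i hi) (q (nx i)) (hI _ (hnxlt i)) (q j) (hI j hj) a1.1 a1.2 a2.1
        with h1 | h1 | h1
      · exact absurd h1 (hqne i hi)
      · exact absurd (hinj _ hi _ hj h1) hne'
      · exact (hinj _ (hnxlt i) _ hj h1).symm
    have b2 : i = nx j := by
      rcases hN (e i) (q j) (hI j hj) (q (nx j)) (hI _ (hnxlt j)) (q i) (hI i hi) a2.1 a2.2 a1.1
        with h1 | h1 | h1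
      · exact absurd h1 (hqne j hj)
      · exact absurd (hinj _ hj _ hi h1).symm hne'
      · exact (hinj _ (hnxlt j) _ hi h1).symm
    by_cases c1 : i + 1 < 2 * h
    · rw [hnx1 i c1] at b1
      by_cases c2 : j + 1 < 2 * h
      · rw [hnx1 j c2] at b2; omega
      · have : j = 2 * h - 1 := by omega
        rw [this, hnx2] at b2; omega
    · have c3 : i = 2 * h - 1 := by omega
      rw [c3, hnx2] at b1
      by_cases c2 : j + 1 < 2 * h
      · rw [hnx1 j c2] at b2; omega
      · omega
  refine ⟨(range (2 * h)).image q, ?_, ?_, (range h).image (fun i => e (2 * i)), ?_, ?_⟩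
  · intro i hi
    obtain ⟨j, hj, rfl⟩ := mem_image.1 hi
    exact hI j (mem_range.1 hj)
  · exact ⟨q 0, mem_image.2 ⟨0, mem_range.2 (by omega), rfl⟩⟩
  · intro i hi
    obtain ⟨j, hj, rfl⟩ := mem_image.1 hi
    rw [mem_range] at hj
    rcases Nat.even_or_odd' j with ⟨a, ha | ha⟩
    · refine ⟨e (2 * a), mem_image.2 ⟨a, mem_range.2 (by omega), rfl⟩, ?_⟩
      rw [ha]; exact (he (2 * a) (by omega)).1
    · refine ⟨e (2 * a), mem_image.2 ⟨a, mem_range.2 (by omega), rfl⟩, ?_⟩
      have := (he (2 * a) (by omega)).2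
      rw [hnx1 (2 * a) (by omega)] at this
      rw [ha]; exact this
  · have hS : ((range (2 * h)).image q).card = 2 * h := by
      rw [card_image_of_injOn, card_range]
      intro i hi j hj hij
      exact hinj i (by simpa using hi) j (by simpa using hj) hij
    have hT : ((range h).image (fun i => e (2 * i))).card ≤ h := by
      refine card_image_le.trans ?_
      rw [card_range]
    have hU : 2 * h ≤ (I.biUnion f \ (I \ (range (2 * h)).image q).biUnion f).card := by
      have h1 : ((range (2 * h)).image e).card = 2 * h := by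
        rw [card_image_of_injOn, card_range]
        intro i hi j hj hij
        exact heinj i (by simpa using hi) j (by simpa using hj) hij
      refine h1.symm.le.trans (card_le_card ?_)
      intro x hx
      obtain ⟨j, hj, rfl⟩ := mem_image.1 hx
      rw [mem_range] at hj
      refine mem_sdiff.2 ⟨mem_biUnion.2 ⟨q j, hI j hj, (he j hj).1⟩, ?_⟩
      intro hx
      obtain ⟨i, hi, hx⟩ := mem_biUnion.1 hx
      rw [mem_sdiff] at hi
      rcases hN (e j) (q j) (hI j hj) (q (nx j)) (hI _ (hnxlt j)) i hi.1 (he j hj).1 (he j hj).2 hx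
        with h1 | h1 | h1
      · exact hqne j hj h1
      · exact hi.2 (mem_image.2 ⟨j, mem_range.2 hj, h1⟩)
      · exact hi.2 (mem_image.2 ⟨nx j, mem_range.2 (hnxlt j), h1⟩)
    rw [hS]
    calc (2 * r - 2) * ((range h).image (fun i => e (2 * i))).card ≤ (2 * r - 2) * h :=
          Nat.mul_le_mul_left _ hT
      _ = 2 * h + (r - 2) * (2 * h) := by
          obtain ⟨s, rfl⟩ : ∃ s, r = s + 2 := ⟨r - 2, by omega⟩
          have e1 : 2 * (s + 2) - 2 = 2 * s + 2 := by omega
          rw [e1, Nat.add_sub_cancel]; ring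
      _ ≤ _ := by omega

/-- a chain of `t + 1` members -/
def Chain (I : Finset ι) (f : ι → Finset V) (t : ℕ) (q : ℕ → ι) : Prop :=
  (∀ j ≤ t, q j ∈ I) ∧ (∀ i ≤ t, ∀ j ≤ t, q i = q j → i = j) ∧
    ∀ j < t, ∃ x, x ∈ f (q j) ∧ x ∈ f (q (j + 1))

lemma good_of_chords {r : ℕ} (hr : 3 ≤ r) {I : Finset ι} {f : ι → Finset V} (hN : NoTriple I f)
    {t : ℕ} {q : ℕ → ι} (hq : Chain I f t q) {j k : ℕ} (hj : 2 ≤ j) (hjk : j < k) (hk : k ≤ t)
    (h1 : ∃ x, x ∈ f (q 0) ∧ x ∈ f (q j)) (h2 : ∃ x, x ∈ f (q 0) ∧ x ∈ f (q k)) :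
    Good r I f := by
  obtain ⟨ha, hb, hc⟩ := hq
  have key : ∀ s, 3 ≤ s → s ≤ t → Odd s → (∃ x, x ∈ f (q 0) ∧ x ∈ f (q s)) → Good r I f := by
    rintro s hs hst ⟨a, rfl⟩ ⟨x, hx1, hx2⟩
    refine good_of_cycle hr hN q (a + 1) (by omega) (fun i hi => ha i (by omega))
      (fun i hi j hj => hb i (by omega) j (by omega)) (fun i hi => hc i (by omega)) ?_
    have : 2 * (a + 1) - 1 = 2 * a + 1 := by omega
    rw [this]
    exact ⟨x, hx2, hx1⟩
  rcases Nat.even_or_odd j with hje | hjo
  · rcases Nat.even_or_odd k with hke | hko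
    · -- both even
      obtain ⟨a, rfl⟩ := hje
      obtain ⟨b, rfl⟩ := hke
      refine good_of_cycle hr hN (fun i => if i = 0 then q 0 else q (a + a + (i - 1))) (b - a + 1)
        (by omega) ?_ ?_ ?_ ?_
      · intro i hi
        by_cases hi0 : i = 0
        · simp only [hi0, if_true]; exact ha 0 (by omega)
        · simp only [hi0, if_false]; exact ha _ (by omega)
      · intro i hi i' hi' hii
        by_cases hi0 : i = 0
        · by_cases hi0' : i' = 0
          · omega
          · simp only [hi0, hi0', if_true, if_false] at hii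
            have := hb _ (by omega) _ (by omega) hii
            omega
        · by_cases hi0' : i' = 0
          · simp only [hi0, hi0', if_true, if_false] at hii
            have := hb _ (by omega) _ (by omega) hii
            omega
          · simp only [hi0, hi0', if_false] at hii
            have := hb _ (by omega) _ (by omega) hii
            omega
      · intro i hi
        by_cases hi0 : i = 0
        · subst hi0
          simpa using h1
        · have e1 : a + a + (i + 1 - 1) = a + a + (i - 1) + 1 := by omega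
          simp only [hi0, if_false, Nat.succ_ne_zero, e1]
          exact hc _ (by omega)
      · obtain ⟨x, hx1, hx2⟩ := h2
        have e1 : 2 * (b - a + 1) - 1 ≠ 0 := by omega
        have e2 : a + a + (2 * (b - a + 1) - 1 - 1) = b + b := by omega
        simp only [e1, if_false, if_true, e2]
        exact ⟨x, hx2, hx1⟩
    · exact key k (by omega) hk hko h2
  · exact key j (by rcases hjo with ⟨a, rfl⟩; omega) (by omega) hjo h1

lemma good_of_three {r : ℕ} (hr : 3 ≤ r) {I : Finset ι} {f : ι → Finset V} (hN : NoTriple I f)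
    (hne : I.Nonempty)
    (h3 : ∀ u ∈ I, ∃ a ∈ I, ∃ b ∈ I, ∃ c ∈ I, a ≠ u ∧ b ≠ u ∧ c ≠ u ∧ a ≠ b ∧ a ≠ c ∧ b ≠ c ∧
      (∃ x, x ∈ f u ∧ x ∈ f a) ∧ (∃ x, x ∈ f u ∧ x ∈ f b) ∧ (∃ x, x ∈ f u ∧ x ∈ f c)) :
    Good r I f := by
  classical
  obtain ⟨u0, hu0⟩ := hne
  have hbd : ∀ t, (∃ q, Chain I f t q) → t ≤ I.card := by
    rintro t ⟨q, ha, hb, -⟩
    have : ((range (t + 1)).image q).card ≤ I.card := by
      apply card_le_card
      intro x hx
      obtain ⟨j, hj, rfl⟩ := mem_image.1 hx
      exact ha j (by rw [mem_range] at hj; omega)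
    rw [card_image_of_injOn, card_range] at this
    · omega
    · intro i hi j hj hij
      simp only [coe_range, Set.mem_Iio] at hi hj
      exact hb i (by omega) j (by omega) hij
  set P : ℕ → Prop := fun t => ∃ q, Chain I f t q with hP
  have h0 : P 0 := by
    refine ⟨fun _ => u0, fun _ _ => hu0, fun i hi j hj _ => by omega, fun j hj => by omega⟩
  set t := Nat.findGreatest P I.card with ht
  have hPt : P t := Nat.findGreatest_spec (P := P) (Nat.zero_le _) h0
  have hPt1 : ¬ P (t + 1) := by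
    intro hc
    have := Nat.findGreatest_is_greatest (P := P) (n := I.card) (k := t + 1) (by omega) (hbd _ hc)
    exact this hc
  obtain ⟨q, hq⟩ := hPt
  obtain ⟨a, ha, b, hb, c, hc, ha0, hb0, hc0, hab, hac, hbc, xa, xb, xc⟩ := h3 (q 0) (hq.1 0 (by omega))
  have hin : ∀ w ∈ I, w ≠ q 0 → (∃ x, x ∈ f (q 0) ∧ x ∈ f w) → ∃ j, 1 ≤ j ∧ j ≤ t ∧ q j = w := by
    rintro w hw hw0 ⟨x, hx1, hx2⟩
    by_contra hcon
    push Not at hcon
    have hnot : ∀ j ≤ t, q j ≠ w := by
      intro j hj
      rcases Nat.eq_zero_or_pos j with rfl | hj0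
      · exact fun h => hw0 h.symm
      · exact hcon j hj0 hj
    apply hPt1
    refine ⟨fun i => if i = 0 then w else q (i - 1), ?_, ?_, ?_⟩
    · intro j hj
      by_cases hj0 : j = 0
      · simp only [hj0, if_true]; exact hw
      · simp only [hj0, if_false]; exact hq.1 _ (by omega)
    · intro i hi j hj hij
      by_cases hi0 : i = 0
      · by_cases hj0 : j = 0
        · omega
        · simp only [hi0, hj0, if_true, if_false] at hij
          exact absurd hij.symm (hnot _ (by omega))
      · by_cases hj0 : j = 0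
        · simp only [hi0, hj0, if_true, if_false] at hij
          exact absurd hij (hnot _ (by omega))
        · simp only [hi0, hj0, if_false] at hij
          have := hq.2.1 _ (by omega) _ (by omega) hij
          omega
    · intro j hj
      by_cases hj0 : j = 0
      · subst hj0
        simpa using ⟨x, hx2, hx1⟩
      · have e1 : j + 1 - 1 = j - 1 + 1 := by omega
        simp only [hj0, if_false, Nat.succ_ne_zero, e1]
        exact hq.2.2 _ (by omega)
  obtain ⟨i1, hi1, hi1t, rfl⟩ := hin a ha ha0 xa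
  obtain ⟨i2, hi2, hi2t, rfl⟩ := hin b hb hb0 xb
  obtain ⟨i3, hi3, hi3t, rfl⟩ := hin c hc hc0 xc
  have n12 : i1 ≠ i2 := fun h => hab (by rw [h])
  have n13 : i1 ≠ i3 := fun h => hac (by rw [h])
  have n23 : i2 ≠ i3 := fun h => hbc (by rw [h])
  rcases lt_or_gt_of_ne n12 with g1 | g1 <;> rcases lt_or_gt_of_ne n13 with g2 | g2 <;>
    rcases lt_or_gt_of_ne n23 with g3 | g3
  all_goals first
    | exact good_of_chords hr hN hq (j := i2) (k := i3) (by omega) (by omega) (by omega) xb xc
    | exact good_of_chords hr hN hq (j := i3) (k := i2) (by omega) (by omega) (by omega) xc xb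
    | exact good_of_chords hr hN hq (j := i1) (k := i3) (by omega) (by omega) (by omega) xa xc
    | exact good_of_chords hr hN hq (j := i3) (k := i1) (by omega) (by omega) (by omega) xc xa
    | exact good_of_chords hr hN hq (j := i1) (k := i2) (by omega) (by omega) (by omega) xa xb
    | exact good_of_chords hr hN hq (j := i2) (k := i1) (by omega) (by omega) (by omega) xb xa

lemma good_exists {r : ℕ} (hr : 3 ≤ r) {I : Finset ι} {f : ι → Finset V} (hne : I.Nonempty)
    (hf : ∀ i ∈ I, (f i).card = r) : Good r I f := by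
  classical
  by_cases hA : ∃ x, 2 < (I.filter (fun i => x ∈ f i)).card
  · obtain ⟨x, hx⟩ := hA
    exact good_of_degree hr hx
  push Not at hA
  have hN : NoTriple I f := noTriple_of hA
  by_cases hB : ∃ u ∈ I, ∀ x ∈ f u, ∀ i ∈ I, x ∈ f i → i = u
  · obtain ⟨u, hu, hx⟩ := hB
    obtain ⟨x, hxu⟩ := card_pos.1 (show 0 < (f u).card by rw [hf u hu]; omega)
    refine ⟨{u}, by simpa using hu, singleton_nonempty u, {x}, ?_, ?_⟩
    · intro i hi
      rw [mem_singleton] at hi
      subst hi
      exact ⟨x, mem_singleton_self x, hxu⟩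
    · have h1 : r ≤ (I.biUnion f \ (I \ {u}).biUnion f).card := by
        rw [← hf u hu]
        apply card_le_card
        intro y hy
        refine mem_sdiff.2 ⟨mem_biUnion.2 ⟨u, hu, hy⟩, ?_⟩
        intro hy'
        obtain ⟨i, hi, hy'⟩ := mem_biUnion.1 hy'
        rw [mem_sdiff, mem_singleton] at hi
        exact hi.2 (hx y hy i hi.1 hy')
      rw [card_singleton, card_singleton]
      omega
  push Not at hB
  by_cases hC : ∃ u ∈ I, ∃ v ∈ I, u ≠ v ∧ ∃ x, x ∈ f u ∧ x ∈ f v ∧ ∃ y, y ≠ x ∧ (y ∈ f u ∨ y ∈ f v) ∧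
      ∀ i ∈ I, y ∈ f i → i = u ∨ i = v
  · obtain ⟨u, hu, v, hv, huv, x, xu, xv, y, yx, hy, hyi⟩ := hC
    refine ⟨{u, v}, ?_, ⟨u, by simp⟩, {x}, ?_, ?_⟩
    · intro i hi
      rw [mem_insert, mem_singleton] at hi
      rcases hi with rfl | rfl
      · exact hu
      · exact hv
    · intro i hi
      rw [mem_insert, mem_singleton] at hi
      rcases hi with rfl | rfl
      · exact ⟨x, mem_singleton_self x, xu⟩
      · exact ⟨x, mem_singleton_self x, xv⟩
    · have h1 : 2 ≤ (I.biUnion f \ (I \ {u, v}).biUnion f).card := by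
        have : ({x, y} : Finset V).card = 2 := card_pair yx.symm
        rw [← this]
        apply card_le_card
        intro z hz
        rw [mem_insert, mem_singleton] at hz
        have hzin : z ∈ I.biUnion f := by
          rcases hz with rfl | rfl
          · exact mem_biUnion.2 ⟨u, hu, xu⟩
          · rcases hy with hy | hy
            · exact mem_biUnion.2 ⟨u, hu, hy⟩
            · exact mem_biUnion.2 ⟨v, hv, hy⟩
        refine mem_sdiff.2 ⟨hzin, ?_⟩
        intro hz'
        obtain ⟨i, hi, hz'⟩ := mem_biUnion.1 hz'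
        rw [mem_sdiff, mem_insert, mem_singleton] at hi
        rcases hz with rfl | rfl
        · rcases hN z u hu v hv i hi.1 xu xv hz' with h | h | h
          · exact huv h
          · exact hi.2 (Or.inl h.symm)
          · exact hi.2 (Or.inr h.symm)
        · exact hi.2 (hyi i hi.1 hz')
      rw [card_singleton, card_pair huv]
      omega
  push Not at hC
  refine good_of_three hr hN hne ?_
  intro u hu
  obtain ⟨x, xu, v, hv, xv, hvu⟩ := hB u hu
  -- two further vertices of f u
  have hcard : 2 < (f u).card := by rw [hf u hu]; omega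
  obtain ⟨y, hy, hyx⟩ : ∃ y ∈ f u, y ≠ x := by
    have : 0 < ((f u).erase x).card := by rw [card_erase_of_mem xu]; omega
    obtain ⟨y, hy⟩ := card_pos.1 this
    exact ⟨y, mem_of_mem_erase hy, ne_of_mem_erase hy⟩
  obtain ⟨z, hz, hzx, hzy⟩ : ∃ z ∈ f u, z ≠ x ∧ z ≠ y := by
    have : 0 < (((f u).erase x).erase y).card := by
      rw [card_erase_of_mem (mem_erase.2 ⟨hyx, hy⟩), card_erase_of_mem xu]; omega
    obtain ⟨z, hz⟩ := card_pos.1 this
    exact ⟨z, mem_of_mem_erase (mem_of_mem_erase hz), ne_of_mem_erase (mem_of_mem_erase hz),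
      ne_of_mem_erase hz⟩
  obtain ⟨w, hw, yw, hwu, hwv⟩ := hC u hu v hv (Ne.symm hvu) x xu xv y hyx (Or.inl hy)
  obtain ⟨w', hw', zw', hwu', hwv'⟩ := hC u hu v hv (Ne.symm hvu) x xu xv z hzx (Or.inl hz)
  have hww : w ≠ w' := by
    obtain ⟨i, hi, zi, hiu, hiw⟩ := hC u hu w hw (Ne.symm hwu) y hy yw z hzy (Or.inl hz)
    rcases hN z u hu w' hw' i hi hz zw' zi with h | h | h
    · exact absurd h.symm hwu'
    · exact absurd h.symm hiu
    · rw [h]; exact fun h' => hiw h'.symm
  exact ⟨v, hv, w, hw, w', hw', hvu, hwu, hwu', fun h => hwv h.symm, fun h => hwv' h.symm, hww,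
    ⟨x, xu, xv⟩, ⟨y, hy, yw⟩, ⟨z, hz, zw'⟩⟩

/-- Transversals of families of `r`-sets, `r ≥ 3`. -/
theorem transversal {r : ℕ} (hr : 3 ≤ r) (f : ι → Finset V) : ∀ (m : ℕ) (I : Finset ι),
    I.card = m → (∀ i ∈ I, (f i).card = r) →
    ∃ T : Finset V, (∀ i ∈ I, ∃ x ∈ T, x ∈ f i) ∧
      (2 * r - 2) * T.card ≤ (I.biUnion f).card + (r - 2) * I.card := by
  classical
  intro m
  induction m using Nat.strong_induction_on with
  | _ m ih =>
    intro I hI hf
    rcases I.eq_empty_or_nonempty with rfl | hne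
    · exact ⟨∅, by simp, by simp⟩
    obtain ⟨S, hS, hSne, T, hT, hTc⟩ := good_exists hr hne hf
    have hlt : (I \ S).card < m := by
      rw [← hI]
      apply card_lt_card
      refine ⟨sdiff_subset, fun h => ?_⟩
      obtain ⟨i, hi⟩ := hSne
      exact (mem_sdiff.1 (h (hS hi))).2 hi
    obtain ⟨T', hT', hT'c⟩ := ih _ hlt (I \ S) rfl (fun i hi => hf i (mem_sdiff.1 hi).1)
    refine ⟨T ∪ T', ?_, ?_⟩
    · intro i hi
      by_cases hiS : i ∈ S
      · obtain ⟨x, hx, hxi⟩ := hT i hiS
        exact ⟨x, mem_union_left _ hx, hxi⟩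
      · obtain ⟨x, hx, hxi⟩ := hT' i (mem_sdiff.2 ⟨hi, hiS⟩)
        exact ⟨x, mem_union_right _ hx, hxi⟩
    · have h1 : (2 * r - 2) * (T ∪ T').card ≤ (2 * r - 2) * T.card + (2 * r - 2) * T'.card := by
        rw [← Nat.mul_add]
        exact Nat.mul_le_mul_left _ (card_union_le _ _)
      have h2 : (I.biUnion f \ (I \ S).biUnion f).card + ((I \ S).biUnion f).card =
          (I.biUnion f).card := by
        apply card_sdiff_add_card_eq_card
        exact biUnion_subset_biUnion_of_subset_left f sdiff_subset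
      have h3 : (r - 2) * S.card + (r - 2) * (I \ S).card = (r - 2) * I.card := by
        rw [← Nat.mul_add, add_comm, card_sdiff_add_card_eq_card hS]
      omega

end Core

/-! ## The definitions of the problem -/

/-- every edge of the hypergraph `H` on the vertex set `{0, …, n-1}` has `k` vertices -/
def Uniform {n : ℕ} (k : ℕ) (H : Finset (Finset (Fin n))) : Prop := ∀ e ∈ H, e.card = k

/-- every vertex lies in an edge -/
def NoIsolated {n : ℕ} (H : Finset (Finset (Fin n))) : Prop := ∀ v, ∃ e ∈ H, v ∈ e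

/-- adjacency: two distinct vertices in a common edge -/
def Adj {n : ℕ} (H : Finset (Finset (Fin n))) (u v : Fin n) : Prop :=
  u ≠ v ∧ ∃ e ∈ H, u ∈ e ∧ v ∈ e

/-- every vertex outside `D` is adjacent to a vertex of `D` -/
def Dominating {n : ℕ} (H : Finset (Finset (Fin n))) (D : Finset (Fin n)) : Prop :=
  ∀ v, v ∉ D → ∃ u ∈ D, Adj H u v

/-- the domination number -/
noncomputable def gamma {n : ℕ} (H : Finset (Finset (Fin n))) : ℕ :=
  sInf {c | ∃ D : Finset (Fin n), Dominating H D ∧ D.card = c}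

/-- the ratios `γ(H) / (x n + y m)` of all `k`-uniform hypergraphs without isolated vertices, `n > 0`
vertices and `m` edges -/
def ratios (k : ℕ) (x y : ℝ) : Set ℝ :=
  {t | ∃ n : ℕ, 0 < n ∧ ∃ H : Finset (Finset (Fin n)), Uniform k H ∧ NoIsolated H ∧
    t = (gamma H : ℝ) / (x * n + y * H.card)}

/-- the surface: the supremum of these ratios -/
noncomputable def z (k : ℕ) (x y : ℝ) : ℝ := sSup (ratios k x y)

lemma gamma_le {n : ℕ} {H : Finset (Finset (Fin n))} {D : Finset (Fin n)} (h : Dominating H D) :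
    gamma H ≤ D.card := Nat.sInf_le ⟨D, h, rfl⟩

lemma gamma_spec {n : ℕ} (H : Finset (Finset (Fin n))) :
    ∃ D : Finset (Fin n), Dominating H D ∧ D.card = gamma H :=
  Nat.sInf_mem (s := {c | ∃ D : Finset (Fin n), Dominating H D ∧ D.card = c})
    ⟨_, univ, fun v hv => absurd (mem_univ v) hv, rfl⟩

lemma dominating_of_cover {n : ℕ} {H I : Finset (Finset (Fin n))} (hIH : I ⊆ H)
    (hI : NoIsolated I) {T : Finset (Fin n)} (hT : ∀ e ∈ I, ∃ x ∈ T, x ∈ e) : Dominating H T := by
  intro v hv
  obtain ⟨e, he, hve⟩ := hI v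
  obtain ⟨x, hx, hxe⟩ := hT e he
  exact ⟨x, hx, fun h => hv (h ▸ hx), e, hIH he, hxe, hve⟩

lemma gamma_le_card {n k : ℕ} (hk : 1 ≤ k) {H : Finset (Finset (Fin n))} (hU : Uniform k H)
    (hH : NoIsolated H) : gamma H ≤ H.card := by
  classical
  rcases H.eq_empty_or_nonempty with rfl | hne
  · have : Dominating (∅ : Finset (Finset (Fin n))) ∅ := by
      intro v _
      obtain ⟨e, he, -⟩ := hH v
      simp at he
    exact gamma_le this
  · obtain ⟨e0, he0⟩ := hne
    obtain ⟨x0, -⟩ := card_pos.1 (show 0 < e0.card by rw [hU e0 he0]; omega)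
    have : ∀ e, ∃ x, e ∈ H → x ∈ e := by
      intro e
      by_cases he : e ∈ H
      · obtain ⟨x, hx⟩ := card_pos.1 (show 0 < e.card by rw [hU e he]; omega)
        exact ⟨x, fun _ => hx⟩
      · exact ⟨x0, fun h => absurd h he⟩
    choose g hg using this
    have hd : Dominating H (H.image g) := dominating_of_cover (Subset.refl H) hH
      (fun e he => ⟨g e, mem_image_of_mem g he, hg e he⟩)
    exact (gamma_le hd).trans card_image_le

lemma card_le_mul {n k : ℕ} {H : Finset (Finset (Fin n))} (hU : Uniform k H)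
    (hH : NoIsolated H) : n ≤ k * H.card := by
  classical
  have h1 : (univ : Finset (Fin n)) ⊆ H.biUnion id := by
    intro v _
    obtain ⟨e, he, hv⟩ := hH v
    exact mem_biUnion.2 ⟨e, he, hv⟩
  have h2 := (card_le_card h1).trans card_biUnion_le
  rw [card_univ, Fintype.card_fin] at h2
  refine h2.trans ?_
  rw [mul_comm, ← smul_eq_mul]
  exact sum_le_card_nsmul _ _ _ (fun e he => (hU e he).le)

/-- the main bound `(2k-4) γ ≤ n + (k-4) m` -/
theorem main_bound {n k : ℕ} (hk : 4 ≤ k) (hn : 0 < n) {H : Finset (Finset (Fin n))}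
    (hU : Uniform k H) (hH : NoIsolated H) : (2 * k - 4) * gamma H ≤ n + (k - 4) * H.card := by
  classical
  have : Nonempty (Fin n) := ⟨⟨0, hn⟩⟩
  obtain ⟨I, hI, hmin⟩ := exists_min_image (H.powerset.filter (fun I => NoIsolated I)) card
    ⟨H, by simp [hH]⟩
  rw [mem_filter, mem_powerset] at hI
  obtain ⟨hIH, hIc⟩ := hI
  have hp : ∀ e, ∃ v : Fin n, e ∈ I → v ∈ e ∧ ∀ e' ∈ I, v ∈ e' → e' = e := by
    intro e
    by_cases he : e ∈ I
    · have hnot : ¬ NoIsolated (I.erase e) := by
        intro hc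
        have := hmin (I.erase e) (by
          rw [mem_filter, mem_powerset]
          exact ⟨(erase_subset _ _).trans hIH, hc⟩)
        rw [card_erase_of_mem he] at this
        have := card_pos.2 ⟨e, he⟩
        omega
      unfold NoIsolated at hnot
      push Not at hnot
      obtain ⟨v, hv⟩ := hnot
      have hv' : ∀ e' ∈ I, v ∈ e' → e' = e := by
        intro e' he' hve'
        by_contra hne
        exact hv e' (mem_erase.2 ⟨hne, he'⟩) hve'
      obtain ⟨e', he', hve'⟩ := hIc v
      have := hv' e' he' hve'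
      subst this
      exact ⟨v, fun _ => ⟨hve', hv'⟩⟩
    · exact ⟨Classical.arbitrary _, fun h => absurd h he⟩
  choose p hp using hp
  obtain ⟨T, hT, hTc⟩ := transversal (r := k - 1) (by omega) (fun e : Finset (Fin n) => e.erase (p e))
    I.card I rfl (fun e he => by
      rw [card_erase_of_mem (hp e he).1, hU e (hIH he)])
  have hd : Dominating H T := dominating_of_cover hIH hIc (fun e he => by
    obtain ⟨x, hx, hxe⟩ := hT e he
    exact ⟨x, hx, mem_of_mem_erase hxe⟩)
  have hcount : (I.biUnion (fun e : Finset (Fin n) => e.erase (p e))).card + I.card ≤ n := by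
    have h1 : (I.image p).card = I.card := by
      apply card_image_of_injOn
      intro e he e' he' hee
      have h2 := hp e he
      have h3 := hp e' he'
      rw [← hee] at h3
      exact h3.2 e he h2.1
    have h2 : Disjoint (I.biUnion (fun e : Finset (Fin n) => e.erase (p e))) (I.image p) := by
      rw [Finset.disjoint_left]
      intro x hx hx'
      obtain ⟨e, he, hxe⟩ := mem_biUnion.1 hx
      obtain ⟨e', he', rfl⟩ := mem_image.1 hx'
      have h3 := (hp e' he').2 e he (mem_of_mem_erase hxe)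
      subst h3
      exact absurd rfl (ne_of_mem_erase hxe)
    rw [← h1, ← card_union_of_disjoint h2]
    refine (card_le_univ _).trans ?_
    rw [Fintype.card_fin]
  have hIm : I.card ≤ H.card := card_le_card hIH
  obtain ⟨s, rfl⟩ : ∃ s, k = s + 4 := ⟨k - 4, by omega⟩
  have e1 : 2 * (s + 4 - 1) - 2 = 2 * (s + 4) - 4 := by omega
  have e2 : s + 4 - 1 - 2 = s + 1 := by omega
  rw [e1, e2] at hTc
  have h4 : (2 * (s + 4) - 4) * gamma H ≤ (2 * (s + 4) - 4) * T.card :=
    Nat.mul_le_mul_left _ (gamma_le hd)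
  have h5 : (s + 1) * I.card = s * I.card + I.card := by ring
  have h6 : s * I.card ≤ s * H.card := Nat.mul_le_mul_left _ hIm
  rw [Nat.add_sub_cancel]
  omega

/-- the inequality for one hypergraph -/
theorem weighted {n k : ℕ} (hk : 4 ≤ k) (hn : 0 < n) {H : Finset (Finset (Fin n))}
    (hU : Uniform k H) (hH : NoIsolated H) {x y : ℝ} (hy : 0 ≤ y) (hx : 0 < k * x + y)
    (hxy : (k - 4) * x ≤ y) :
    (k * x + y) * gamma H ≤ x * n + y * H.card ∧ 0 < x * n + y * H.card := by
  have h1 : ((2 * k - 4) * gamma H : ℝ) ≤ n + (k - 4) * H.card := by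
    have := main_bound hk hn hU hH
    obtain ⟨s, rfl⟩ : ∃ s, k = s + 4 := ⟨k - 4, by omega⟩
    have e1 : 2 * (s + 4) - 4 = 2 * s + 4 := by omega
    rw [e1, Nat.add_sub_cancel] at this
    have h' : (((2 * s + 4) * gamma H : ℕ) : ℝ) ≤ ((n + s * H.card : ℕ) : ℝ) := by exact_mod_cast this
    push_cast at h' ⊢
    linarith
  have h2 : (gamma H : ℝ) ≤ H.card := by exact_mod_cast gamma_le_card (by omega) hU hH
  have h3 : (n : ℝ) ≤ k * H.card := by exact_mod_cast card_le_mul hU hH
  have hg : (0 : ℝ) ≤ gamma H := Nat.cast_nonneg _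
  obtain ⟨e, he, -⟩ := hH ⟨0, hn⟩
  have hm : (1 : ℝ) ≤ H.card := by exact_mod_cast card_pos.2 ⟨e, he⟩
  have hkn : (k : ℝ) ≤ n := by
    have : e.card ≤ n := by
      have := card_le_univ e
      rwa [Fintype.card_fin] at this
    rw [hU e he] at this
    exact_mod_cast this
  rcases le_or_gt 0 x with hx0 | hx0
  · constructor
    · have a1 := mul_le_mul_of_nonneg_left h1 hx0
      have a2 := mul_le_mul_of_nonneg_left h2 (sub_nonneg.2 hxy)
      nlinarith
    · have a1 := mul_le_mul_of_nonneg_left hkn hx0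
      have a2 := mul_le_mul_of_nonneg_left hm hy
      nlinarith
  · have a3 := mul_le_mul_of_nonpos_left h3 hx0.le
    constructor
    · have a4 := mul_le_mul_of_nonneg_left h2 hx.le
      nlinarith
    · have a4 := mul_le_mul_of_nonneg_left hm hx.le
      nlinarith

lemma gamma_univ {k : ℕ} (hk : 1 ≤ k) : gamma ({univ} : Finset (Finset (Fin k))) = 1 := by
  apply le_antisymm
  · have : Dominating ({univ} : Finset (Finset (Fin k))) {⟨0, hk⟩} := by
      intro v hv
      refine ⟨⟨0, hk⟩, mem_singleton_self _, fun h => hv (by rw [h]; exact mem_singleton_self _),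
        univ, mem_singleton_self _, mem_univ _, mem_univ _⟩
    simpa using gamma_le this
  · obtain ⟨D, hD, hDc⟩ := gamma_spec ({univ} : Finset (Finset (Fin k)))
    rw [← hDc]
    by_contra hc
    have hD0 : D = ∅ := card_eq_zero.1 (by omega)
    obtain ⟨u, hu, -⟩ := hD ⟨0, hk⟩ (by rw [hD0]; simp)
    rw [hD0] at hu
    simp at hu

lemma mem_ratios {k : ℕ} (hk : 1 ≤ k) (x y : ℝ) : 1 / (k * x + y) ∈ ratios k x y := by
  classical
  have hg := gamma_univ hk
  refine ⟨k, hk, {univ}, ?_, ?_, ?_⟩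
  · intro e he
    rw [mem_singleton] at he
    rw [he, card_univ, Fintype.card_fin]
  · intro v
    exact ⟨univ, mem_singleton_self _, mem_univ _⟩
  · rw [hg, card_singleton]
    push_cast
    ring_nf

/-- linear bounds for `4`-uniform hypergraphs -/
lemma linear_iff (a b : ℝ) :
    (∀ n : ℕ, 0 < n → ∀ H : Finset (Finset (Fin n)), Uniform 4 H → NoIsolated H →
      (gamma H : ℝ) ≤ a * n + b * H.card) ↔ 1 ≤ 4 * a + b ∧ 0 ≤ b := by
  constructor
  · intro h
    refine ⟨?_, ?_⟩
    · have h1 := h 4 (by norm_num) {univ} (by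
        intro e he
        rw [mem_singleton] at he
        rw [he, card_univ, Fintype.card_fin]) (fun v => ⟨univ, mem_singleton_self _, mem_univ _⟩)
      rw [gamma_univ (by norm_num), card_singleton] at h1
      push_cast at h1
      linarith
    · by_contra hb
      push Not at hb
      obtain ⟨N, hN⟩ := exists_nat_gt ((96 * |a| + 96) / (-b))
      rw [div_lt_iff₀ (by linarith)] at hN
      set M : ℕ := N + 1 with hM
      have hMN : (N : ℝ) ≤ M := by rw [hM]; push_cast; linarith
      have hM1 : (1 : ℝ) ≤ M := by rw [hM]; push_cast; linarith [Nat.cast_nonneg (α := ℝ) N]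
      have hMb : 96 * |a| + 96 < M * -b := lt_of_lt_of_le hN (by nlinarith)
      have h1 := h (M + 3) (by omega) (powersetCard 4 univ) (fun e he => (mem_powersetCard.1 he).2)
        (by
          intro v
          obtain ⟨u, hu1, hu2, hu3⟩ := exists_subsuperset_card_eq (s := {v}) (t := univ) (n := 4)
            (subset_univ _) (by simp) (by rw [card_univ, Fintype.card_fin]; omega)
          exact ⟨u, mem_powersetCard.2 ⟨hu2, hu3⟩, hu1 (mem_singleton_self v)⟩)
      rw [card_powersetCard, card_univ, Fintype.card_fin] at h1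
      have h2 : (M : ℝ) ^ 4 ≤ 24 * ((M + 3).choose 4 : ℝ) := by
        have h3 := Nat.pow_le_choose (α := ℝ) 4 (M + 3)
        rw [div_le_iff₀ (by positivity)] at h3
        have e1 : M + 3 + 1 - 4 = M := by omega
        rw [e1] at h3
        have e2 : ((4).factorial : ℝ) = 24 := by norm_num [Nat.factorial]
        rw [e2] at h3
        linarith
      have h0 : (0 : ℝ) ≤ gamma (powersetCard 4 (univ : Finset (Fin (M + 3)))) := Nat.cast_nonneg _
      have h4 : a * ((M + 3 : ℕ) : ℝ) ≤ |a| * (4 * M) := by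
        push_cast
        calc a * (M + 3) ≤ |a| * (M + 3) :=
              mul_le_mul_of_nonneg_right (le_abs_self a) (by linarith)
          _ ≤ |a| * (4 * M) := mul_le_mul_of_nonneg_left (by linarith) (abs_nonneg a)
      have h5 : b * ((M + 3).choose 4 : ℝ) ≤ b * ((M : ℝ) ^ 4 / 24) :=
        mul_le_mul_of_nonpos_left (by linarith) hb.le
      have h6 : (M : ℝ) * -b * (M : ℝ) ≤ (M : ℝ) * -b * (M : ℝ) ^ 3 := by
        apply mul_le_mul_of_nonneg_left _ (by nlinarith [abs_nonneg a])
        calc (M : ℝ) = M ^ 1 := (pow_one _).symm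
          _ ≤ M ^ 3 := pow_le_pow_right₀ hM1 (by norm_num)
      have h7 : (96 * |a| + 96) * M ≤ (M : ℝ) * -b * M :=
        mul_le_mul_of_nonneg_right hMb.le (by linarith)
      have h8 : (M : ℝ) * -b * (M : ℝ) ^ 3 = -(24 * (b * ((M : ℝ) ^ 4 / 24))) := by ring
      nlinarith [abs_nonneg a]
  · rintro ⟨h1, h2⟩ n hn H hU hH
    have h3 := (weighted (k := 4) le_rfl hn hU hH (x := a) (y := b) h2
      (by push_cast; linarith) (by push_cast; linarith)).1
    push_cast at h3
    have hg : (0 : ℝ) ≤ gamma H := Nat.cast_nonneg _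
    nlinarith

/-- **The surface `Γ_4`, and `Γ_k` over `y ≥ (k-4) x`.** -/
theorem result :
    (∀ x y : ℝ, 0 ≤ y → -y / 4 < x → z 4 x y = 1 / (4 * x + y)) ∧
    (∀ a b : ℝ, (∀ n : ℕ, 0 < n → ∀ H : Finset (Finset (Fin n)), Uniform 4 H → NoIsolated H →
      (gamma H : ℝ) ≤ a * n + b * H.card) ↔ 1 ≤ 4 * a + b ∧ 0 ≤ b) ∧
    (∀ k : ℕ, 4 ≤ k → ∀ x y : ℝ, 0 ≤ y → -y / k < x → (k - 4) * x ≤ y →
      IsGreatest (ratios k x y) (1 / (k * x + y)) ∧ z k x y = 1 / (k * x + y)) := by
  have main : ∀ k : ℕ, 4 ≤ k → ∀ x y : ℝ, 0 ≤ y → -y / k < x → (k - 4) * x ≤ y →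
      IsGreatest (ratios k x y) (1 / (k * x + y)) := by
    intro k hk x y hy hx hxy
    have hk0 : (0 : ℝ) < k := by exact_mod_cast (show 0 < k by omega)
    have hpos : 0 < k * x + y := by
      rw [div_lt_iff₀ hk0] at hx
      linarith
    refine ⟨mem_ratios (by omega) x y, ?_⟩
    rintro t ⟨n, hn, H, hU, hH, rfl⟩
    obtain ⟨h1, h2⟩ := weighted hk hn hU hH hy hpos hxy
    rw [div_le_div_iff₀ h2 hpos]
    linarith
  refine ⟨fun x y hy hx => ?_, linear_iff, fun k hk x y hy hx hxy => ⟨main k hk x y hy hx hxy,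
    (main k hk x y hy hx hxy).csSup_eq⟩⟩
  have := (main 4 le_rfl x y hy (by exact_mod_cast hx) (by norm_num; exact hy)).csSup_eq
  simpa [z] using this

end Pool.Agent.Results.MP_0828a1_co.SurfaceFour
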